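import Pool.Agent.Helper68.Dom.Goals

set_option autoImplicit false

namespace NApexGraphs.Dom.Helper56

open SimpleGraph NApexGraphs.Dom

theorem gDEG3 (h1 : Goals.PSETS) (h2 : Goals.TWO) : Goals.DEG3 := by
  classical
  intro V _ G n u x hS hx
  obtain ⟨X, hX⟩ := h1 V G n u x hS hx
  obtain ⟨p, q, hpq, hp, hq, hap, haq⟩ := h2 V G n u x X hS hx hX
  have hp1 : p ∉ X := hp.1
  have hq1 : q ∉ X := hq.1
  have hpu : p ≠ u := hp.2.1
  have hqu : q ≠ u := hq.2.1
  have hcard : (insert u (insert p (insert q X)) : Finset V).card = n + 3 := by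
    rw [Finset.card_insert_of_notMem, Finset.card_insert_of_notMem, Finset.card_insert_of_notMem,
      hX.card]
    · exact hq1
    · simp only [Finset.mem_insert, not_or]
      exact ⟨hpq, hp1⟩
    · simp only [Finset.mem_insert, not_or]
      exact ⟨hpu.symm, hqu.symm, hX.hu⟩
  have hsub : ((insert u (insert p (insert q X)) : Finset V) : Set V) ⊆ G.neighborSet x := by
    intro z hz
    simp only [Finset.coe_insert, Set.mem_insert_iff, Finset.mem_coe] at hz
    rw [SimpleGraph.mem_neighborSet]
    rcases hz with rfl | rfl | rfl | hz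
    · exact (hS.dom x hx).symm
    · exact hap
    · exact haq
    · exact hX.nbr z hz
  have := Set.ncard_le_ncard hsub (Set.toFinite _)
  rw [Set.ncard_coe_finset, hcard] at this
  exact this

end NApexGraphs.Dom.Helper56
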